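import Pool.Agent.N992.HSC.Pos

/-!
# The standard conjecture of Hodge type for Fermat varieties in positive characteristic

Let `m` be prime to the prime `p`, and let `X` be the Fermat variety of degree `m` and dimension
`2 * k` over an algebraic closure of the field with `p` elements (for odd dimensions there is
nothing to prove). The primitive algebraic classes of codimension `k` form, with complex
coefficients, the sum of their eigenspaces `A(s)` for certain Tate characters `s` (multisets of
`2 * k + 2` nonzero residues mod `m`), and `(-1) ^ k * deg (x * conj x)`, `x ∈ A(s)`, has a sign,
the sign of `s`. These signs form a *sign system* (see `SignSystem`, where the reasons are given),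
and the primitive algebraic classes with the form `(-1) ^ k * deg (x * y)` are an example of the
structure `PrimitiveClasses` for this sign system.

We prove: if all odd prime factors of `m` are congruent to 3 modulo 4, then the form is positive
definite, as predicted by the standard conjecture of Hodge type, for every `k` and every prime `p`
not dividing `m`.
-/

namespace Pool.Agent.Results.MP_361a6f_ag.FermatPositivity

open Pool.Agent.H916T Pool.Agent.N214.FT Pool.Agent.N992.HSC

theorem result (p m : ℕ) [NeZero m] (hp : p.Prime) (hpm : p.Coprime m)
    (hm3 : ∀ q : ℕ, q.Prime → q ∣ m → q = 2 ∨ q % 4 = 3) (S : SignSystem p) (k : ℕ)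
    (C : PrimitiveClasses S m k) (v : C.V) (hv : v ≠ 0) : 0 < C.form v v :=
  positive S hp hpm hm3 C hv

end Pool.Agent.Results.MP_361a6f_ag.FermatPositivity
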